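import Pool.Agent.MP_e23604_nt.M.TLZ
import Pool.Agent.MP_e23604_nt.M.TLF
import Pool.Agent.MP_e23604_nt.M.TLT
import Pool.Agent.MP_e23604_nt.M.TLB
import Pool.Agent.MP_e23604_nt.M.TLS
import Pool.Agent.MP_e23604_nt.M.TLV
import Pool.Agent.MP_e23604_nt.M.TSU
import Pool.Agent.MP_e23604_nt.M.TOR
import Pool.Agent.MP_e23604_nt.M.TAN
import Pool.Agent.MP_e23604_nt.M.TCW
import Pool.Agent.MP_e23604_nt.M.TEQ
import Pool.Agent.MP_e23604_nt.M.THX
import Pool.Agent.MP_e23604_nt.M.TGR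
import Pool.Agent.MP_e23604_nt.M.TVA
import Pool.Agent.MP_e23604_nt.M.TKC
import Pool.Agent.MP_e23604_nt.M.TKL
import Pool.Agent.MP_e23604_nt.M.TKD
import Pool.Agent.MP_e23604_nt.M.TFN
import Pool.Agent.MP_e23604_nt.M.MON

/-!
The Hecke relation at an inert prime for the third family.
-/

set_option autoImplicit false

namespace Pool.Agent.MP_e23604_nt.M

theorem MTL_pf : MTL_st :=
  have hM := MGAL_of VV_pf MON_pf
  have hZ := LZ_pf
  have hF := LF_pf hZ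
  have hB := LB_pf hZ hF (LT_pf hZ hF)
  have hS := LS_pf hZ hF hB
  have hV := LV_pf hB hS
  have hA := AN_pf hZ hF hB
  have hP := PT_pf hB
  have hW := CW_pf hB OR_pf hA
  have hE := EQ_pf hB hS SU_pf hA
  have hG := GR_pf hB hF hV SU_pf OR_pf hA hW hE
  have hC := KC_pf VV_pf
  have hL := KL_pf hZ hF (LT_pf hZ hF) hB KN_pf
  MTL_of hM hB hS hV SU_pf hA hE hG
    (VA_pf hB hA hP hW hE (HX_pf hB hS hV (LH_pf hZ hF hB hS) DE_pf hA hP hE) hG) hC hL KN_pf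
    (KD_pf hB hV hA hP hC hL KN_pf (KV_pf VV_pf hM hS hC hL KN_pf))

end Pool.Agent.MP_e23604_nt.M
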