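import Pool.Agent.MP_e23604_nt.M.End
import Pool.Agent.MP_e23604_nt.M.BR
import Pool.Agent.MP_e23604_nt.M.RK
import Pool.Agent.MP_e23604_nt.M.LOQ
import Pool.Agent.MP_e23604_nt.M.SPQ
import Pool.Agent.MP_e23604_nt.M.KQ
import Pool.Agent.MP_e23604_nt.M.RDQ
import Pool.Agent.MP_e23604_nt.M.HSM
import Pool.Agent.MP_e23604_nt.M.TQ
import Pool.Agent.MP_e23604_nt.M.VV
import Pool.Agent.MP_e23604_nt.M.CONG
import Pool.Agent.MP_e23604_nt.M.GMUL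
import Pool.Agent.MP_e23604_nt.M.MKW
import Pool.Agent.MP_e23604_nt.M.MTL
import Pool.Agent.MP_e23604_nt.X.AllN
import Pool.Agent.MP_e23604_nt.PH.Top

/-!
The third system of points: the bottom point has infinite order.
-/

set_option autoImplicit false

open Filter Topology

namespace Pool.Agent.MP_e23604_nt.M

theorem MGAL_ok : MGAL_st := MGAL_of VV_pf MON_pf
theorem RK_ok : RK_st := RK_pf BR_pf
theorem LOQ_ok : LOQ_st := LOQ_pf COM_pf N.CN_ok N.AL_ok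
theorem BAQ_ok : BAQ_st := BAQ_pf COM_pf TLQ_pf N.DL_ok N.CN_ok N.AL_ok N.LU_ok N.SUM_ok X.KPI_pf
theorem SPQ_ok : SPQ_st := SPQ_pf BR_pf N.DL_ok N.CN_ok N.SUM_ok X.KPI_pf
theorem BSQ_ok : BSQ_st := BSQ_pf BAQ_ok N.AL_ok X.KW_pf X.IND_ok N.FAM_ok
theorem KQ_ok : KQ_st := KQ_pf RK_ok LOQ_ok N.AL_ok N.FRI_ok N.TRF_ok N.WT_ok N.LO_ok N.FAM_ok
theorem RDQ_ok : RDQ_st := RDQ_pf BR_pf RK_ok SPQ_ok N.AL_ok N.KT_ok N.KIT_ok N.WT_ok N.FAM_ok N.TR_ok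

theorem ENDM_ok (Q : QS) : End Q.toHS :=
  ENDM_of N.LU_ok N.AL_ok V.LMX_ok V.LB_ok V.MACH_ok X.DAT_ok N.ENC_ok KQ_ok RDQ_ok BSQ_ok N.KS_ok
    N.FAM_ok N.DVS_ok Q

theorem HSM_ok : HSM_st :=
  HSM_of VV_pf TQ_pf MGAL_ok (MCONG_of VV_pf MGAL_ok) (MKW_of VV_pf MGAL_ok GPR_pf GMUL_pf)
    MTL_pf N.KIT_ok N.AL_ok X.KW_pf

/-- the densities -/
theorem final_ok (r : ℕ) (hr : r ≤ 1) :
    Tendsto (fun X : ℕ => ({D : ℕ | 1 ≤ D ∧ D ≤ X ∧ par3 D = r ∧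
      AddGroup.FG (EC D).toAffine.Point ∧ Module.finrank ℤ (EC D).toAffine.Point = r ∧
        Finite (Sha (EC D))}.ncard : ℝ) / X) atTop (𝓝 (1 / 2)) :=
  final_three Y.FINY_ok (X.heegN_of Un.NTL_pf)
    (heegM_of HSM_ok ENDM_ok X.YHS_pf X.FACN_pf X.NHB_pf X.KW_pf)
    (fun D v m h _ p e hm c => PH.heegP_ok D v m h p e hm (by omega)) r hr

end Pool.Agent.MP_e23604_nt.M
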