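import Pool.Agent.MP_e23604_nt.M.TDefs

/-!
Translations that fix the lines.
-/

set_option autoImplicit false

open Filter Topology Asymptotics Finset QuadraticAlgebra
open scoped MatrixGroups Classical

namespace Pool.Agent.MP_e23604_nt.M

open B R S W Un

theorem le_TCX (L : PeriodPair) (x y : ℂ) : L.lattice ≤ (MM L x y).lattice := by
  rw [MM, Mq]
  split_ifs with e
  exacts [e.choose_spec.le, le_rfl]

theorem int_TCX {τ z : ℂ} (h : τ ∈ HH) (k : ℤ) (e : z = k) : z ∈ (Lt τ).lattice := by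
  simpa [e, lin] using lin_mem h (0, k)

theorem lin_TCX (p : ℤ × ℤ) (m : ℤ) (τ : ℂ) : lin (Un.act (Tn m) p) τ = lin p τ + p.1 * m := by
  simp only [lin, Un.act, Tn]
  simp
  ring

theorem fc_TCX {v : Vv} {m i j : ℤ} (hi : (v.1.1 + 2 * v.2.1) * m = 9 * i)
    (hj : (2 * v.1.1 + v.2.1) * m = 9 * j)
    (e : ∀ τ ∈ HH, (m : ℂ) / 9 ∈ (MM (Lt τ) (vx v τ) (vy v τ)).lattice) : FC v (av (Tn m) v) :=
  fun τ h => by
  have a : ((v.1.1 : ℂ) + 2 * v.2.1) * m = 9 * i := by exact_mod_cast hi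
  have b : (2 * (v.1.1 : ℂ) + v.2.1) * m = 9 * j := by exact_mod_cast hj
  have k : ∀ p : ℤ × ℤ, lin (Un.act (Tn m) p) τ / 9 - lin p τ / 9 ∈
      (MM (Lt τ) (vx v τ) (vy v τ)).lattice := fun p => by
    rw [show lin (Un.act (Tn m) p) τ / 9 - lin p τ / 9 = p.1 • ((m : ℂ) / 9) by
      rw [lin_TCX, zsmul_eq_mul]; ring]
    exact Submodule.smul_mem _ _ (e τ h)
  refine ⟨.inl (int_TCX h i ?_), .inr (.inl (int_TCX h (-j) ?_)), .inl (k _), .inr (.inl (k _))⟩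
  · simp only [pu, vx, vy, av, lin_TCX]
    linear_combination a / 9
  · simp only [qu, vx, vy, av, lin_TCX]
    push_cast
    linear_combination -b / 9

theorem fc9_TCX (v : Vv) (n : ℕ) : FC v (av (Tn (9 * n : ℕ)) v) :=
  fc_TCX (i := (v.1.1 + 2 * v.2.1) * n) (j := (2 * v.1.1 + v.2.1) * n) (by push_cast; ring)
    (by push_cast; ring) fun τ h => le_TCX _ _ _ (int_TCX h n (by push_cast; ring))

theorem t_TCX (v : Vv) (τ : ℂ) :
    3 * pu (vx v τ) (vy v τ) = lin (v.1 + (2 : ℤ) • v.2) τ / ((3 : ℕ) : ℤ) := by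
  simp only [pu, vx, vy, lin_add, lin_smul]
  push_cast
  ring

theorem fc3_TCX (hB : LB_st) (v : Vv) (h : FB v) (d : 3 ∣ v.1.1 + 2 * v.2.1) (n : ℕ) :
    FC v (av (Tn (3 * n : ℕ)) v) := by
  obtain ⟨k, d⟩ := d
  refine fc_TCX (i := k * n) (j := (2 * k - v.2.1) * n) (by push_cast; linear_combination 3 * n * d)
    (by push_cast; linear_combination 6 * n * d) fun τ hτ => ?_
  obtain ⟨c, r, -⟩ := hB _ _ _ (h τ hτ)
  have t0 := c.P0
  have t := r.mem _ (show 3 * pu (vx v τ) (vy v τ) ∈ _ by simp)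
  rw [t_TCX, lin_div_mem hτ (by norm_num)] at t0
  obtain ⟨j, e⟩ : 3 ∣ (v.1.2 + 2 * v.2.2) * (v.1.2 + 2 * v.2.2) - 1 := by
    have : ¬ 3 ∣ v.1.2 + 2 * v.2.2 := fun a => t0 ⟨⟨k, by simpa using d⟩, by simpa using a⟩
    generalize v.1.2 + 2 * v.2.2 = u at this
    obtain a | a : 3 ∣ u - 1 ∨ 3 ∣ u + 1 := by omega
    · simpa [show u * u - 1 = (u - 1) * (u + 1) by ring] using a.mul_right (u + 1)
    · simpa [show u * u - 1 = (u - 1) * (u + 1) by ring] using a.mul_left (u - 1)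
  have := Submodule.smul_mem _ (n : ℤ) (sub_mem (Submodule.smul_mem _ (v.1.2 + 2 * v.2.2) t)
    (r.le (lin_mem hτ ((v.1.2 + 2 * v.2.2) * k, j))))
  have d' : (v.1.1 : ℂ) + 2 * v.2.1 = 3 * k := by exact_mod_cast d
  have e' : ((v.1.2 : ℂ) + 2 * v.2.2) * (v.1.2 + 2 * v.2.2) - 1 = 3 * j := by exact_mod_cast e
  rwa [show (n : ℤ) • ((v.1.2 + 2 * v.2.2) • (3 * pu (vx v τ) (vy v τ)) -
    lin ((v.1.2 + 2 * v.2.2) * k, j) τ) = (((3 * n : ℕ) : ℤ) : ℂ) / 9 by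
      simp only [zsmul_eq_mul, pu, vx, vy, lin]
      push_cast
      linear_combination n * (v.1.2 + 2 * v.2.2) * τ / 3 * d' + n / 3 * e'] at this

end Pool.Agent.MP_e23604_nt.M
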